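import Mathlib
import Pool.Agent.LibFO2E.Defs
import Pool.Agent.LibFO2E.Sig
import Pool.Agent.LibFO2E.Left
import Pool.Agent.LibFO2E.Right2
import Pool.Agent.LibQA.Base

set_option autoImplicit false

/-!
# The interpolant existence problem for equality-free `FO² 2E` is undecidable

The formulas, structures, signatures, free variables, interpolants and Gödel numbers are defined in
`Pool.Agent.LibFO2E.Defs`.
-/

namespace Pool.Agent.Results.MP_63b1b1_lc.Undecidable

open Pool.Agent.LibFO2E Pool.Agent.LibQA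

theorem reduction {s k : ℕ} {δ : ℕ → ℕ → Option (ℕ × List ℕ)} {q₀ : ℕ} (hfin : QFinite s k δ)
    (hq₀ : q₀ < s) {l : List ℕ} (h0 : l ≠ []) (hl : ∀ c ∈ l, c < k) :
    (∃ ι, IsInterpolant (phi s k δ q₀ l) (psi k) ι) ↔ QHalts δ (q₀, l) := by
  constructor
  · rintro ⟨ι, hu, -, -, h1, h2⟩
    by_contra hcon
    obtain ⟨q, a, v, hq0, hq, hδ, hv, ha⟩ := seq_of_not_halts l s k hfin hq₀ h0 hl hcon
    obtain ⟨g1, g2⟩ := model_phi h0 hv q a s k δ hq hδ ha
    have hsh : ∀ n ∈ usig ι, IsSh n := by
      intro n hn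
      obtain ⟨h3, h4⟩ := hu hn
      rcases usig_psi k n h4 with h5 | h5
      · have h6 : n ≠ 5 := by
          rintro rfl
          exact five_not_mem_phi s k δ q₀ l h3
        exact Or.inl (by omega)
      · exact Or.inr h5
    have h3 : Sat (MA h0 hv q a) (phi s k δ q₀ l) (El.root : El Bool) (El.root : El Bool) := by
      rw [← hq0]
      exact (sat_phi (MA h0 hv q a) s k δ (q 0) l (El.root : El Bool) (El.root : El Bool)).2
        ⟨g1, g2⟩
    have h4 := h1 _ _ _ h3
    have h5 : Sat (model bB a PB) ι (El.root : El Unit) (El.root : El Unit) :=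
      (bisim (good_bA h0 hv) good_bB a (PA h0 hv q a) PB ι
        (fun n hn e he => PA_sh h0 hv q a n e he (hsh n hn))
        (fun n hn e he => PB_sh n e he (hsh n hn)) El.root El.root El.root El.root rfl rfl
        ⟨⟨fun _ => rfl, fun _ => rfl⟩, ⟨fun _ => rfl, fun _ => rfl⟩,
          ⟨fun h => h.elim, fun h => h.elim⟩, ⟨fun h => h.elim, fun h => h.elim⟩⟩).1 h4
    have h6 := h2 _ _ _ h5
    exact h6 ((sat_npsi (model bB a PB) k (El.root : El Unit) (El.root : El Unit)).2
      (model_npsi a k))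
  · rintro ⟨N, hN⟩
    refine ⟨iota k N, usig_iota s k δ q₀ l N, bsig_iota s k δ q₀ l N, ?_, ?_,
      iota_entails_psi k N⟩
    · rw [fv_phi, fv_psi, Set.inter_self]
      exact fv_iota k N
    · intro S a b h
      obtain ⟨g1, g2⟩ := (sat_phi S s k δ q₀ l a b).1 h
      exact (sat_iota S k N a b).2 (phi_side hfin hq₀ h0 hl g1 g2 hN)

/-- **The interpolant existence problem for two-variable first-order logic with two equivalence
relations, without equality and without constants, is undecidable**: no algorithm decides, given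
(the Gödel numbers of) two formulas with the same free variables, whether they have an interpolant.
Moreover there is a fixed formula `ψ(x)` such that no algorithm decides, given a formula `φ(x)`,
whether `φ` and `ψ` have an interpolant. -/
theorem result :
    (¬ ∃ D : ℕ → ℕ → Bool, Computable₂ D ∧ ∀ φ ψ : Fml, fv φ = fv ψ →
      (D (code φ) (code ψ) = true ↔ ∃ ι, IsInterpolant φ ψ ι)) ∧
    ∃ ψ : Fml, fv ψ = {Var.x} ∧
      ¬ ∃ D : ℕ → Bool, Computable D ∧ ∀ φ : Fml, fv φ = {Var.x} →
        (D (code φ) = true ↔ ∃ ι, IsInterpolant φ ψ ι) := by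
  obtain ⟨s, k, δ, q₀, ini, hfin, hq₀, hini, hP, hU⟩ := base
  have key : ¬ ∃ D : ℕ → Bool, Computable D ∧ ∀ φ : Fml, fv φ = {Var.x} →
      (D (code φ) = true ↔ ∃ ι, IsInterpolant φ (psi k) ι) := by
    rintro ⟨D, hD, hD'⟩
    apply hU
    have hc : Computable fun n => D (code (phi s k δ q₀ (ini n))) :=
      hD.comp ((primrec_code_phi s k δ q₀).comp hP).to_comp
    have h1 : ∀ n, (D (code (phi s k δ q₀ (ini n))) = true ↔ QHalts δ (q₀, ini n)) := fun n =>
      (hD' _ (fv_phi s k δ q₀ (ini n))).trans (reduction hfin hq₀ (hini n).1 (hini n).2)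
    classical
    exact (ComputablePred.computable_iff.2 ⟨_, hc, rfl⟩).of_eq h1
  refine ⟨?_, psi k, fv_psi k, key⟩
  rintro ⟨D, hD, hD'⟩
  apply key
  refine ⟨fun m => D m (code (psi k)), ?_, ?_⟩
  · exact Computable₂.comp hD Computable.id (Computable.const _)
  · intro φ hφ
    exact hD' φ (psi k) (by rw [hφ, fv_psi])

end Pool.Agent.Results.MP_63b1b1_lc.Undecidable
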